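import Pool.Agent.H229.BI.Reduce

/-!
# Born-Infeld minimizers with locally `L^(m-1)` sources have no light segments

Full (negative) answer to the question: for every `m ≥ 2`, every bounded domain `Ω`, every
boundary datum `φ` in the class `𝒮(∂Ω)` and every source `ρ` in `L¹(Ω)` which is locally in
`L^(m-1)`, no minimizer of the Born-Infeld functional has a light segment in `Ω`.

The definitions (in `Pool/Agent/H229/BI/Defs.lean`) follow the problem file:

* `innerDist Ω x y` : infimum of the lengths of the piecewise affine paths from `x` to `y` whose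
  interior lies in `Ω` (`⊤` if there is none);
* `IsSpacelikeBoundary Ω φ` : `φ` is continuous on the frontier and
  `|φ x - φ y| < innerDist Ω x y` for distinct points of the frontier;
* `IsAdmissible Ω φ v` : `v` is continuous on the closure, equal to `φ` on the frontier, locally
  Lipschitz in `Ω` with gradient of norm at most one almost everywhere (these are exactly the
  functions of `W^(1,∞)(Ω) ∩ C(closure Ω)` with `|Dv| ≤ 1` almost everywhere and `v = φ` on the
  frontier, the weak gradient being the pointwise gradient, by Rademacher's theorem);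
* `energy Ω ρ v` : the functional `∫ (1 - √(1 - |Dv|²)) - ∫ ρ v`;
* `IsMinimizer Ω φ ρ u` : `u` is admissible and minimizes the functional;
* `HasLightSegment Ω u` : there is a closed segment `[x, y]` in `Ω`, `x ≠ y`, along which
  `|u x - u y| = ‖x - y‖`.
-/

open MeasureTheory Set
open scoped ENNReal
open Pool.Agent.H229.BI

theorem Pool.Agent.Results.MP_84d657_an.NoLightSegment.result (m : ℕ) (hm : 2 ≤ m)
    (Ω : Set (EuclideanSpace ℝ (Fin m))) (hΩo : IsOpen Ω) (_hΩc : IsConnected Ω)
    (hΩb : Bornology.IsBounded Ω) (φ : EuclideanSpace ℝ (Fin m) → ℝ)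
    (hφ : IsSpacelikeBoundary Ω φ) (ρ : EuclideanSpace ℝ (Fin m) → ℝ)
    (hρ : IntegrableOn ρ Ω volume)
    (hρloc : ∀ K : Set (EuclideanSpace ℝ (Fin m)), IsCompact K → K ⊆ Ω →
      MemLp ρ ((m - 1 : ℕ) : ℝ≥0∞) (volume.restrict K))
    (u : EuclideanSpace ℝ (Fin m) → ℝ) (hu : IsMinimizer Ω φ ρ u) :
    ¬ HasLightSegment Ω u := by
  obtain ⟨n, rfl⟩ : ∃ n, m = n + 1 := ⟨m - 1, by omega⟩
  exact no_light_segment (by omega) hΩo hΩb hφ hρ (fun K h1 h2 => by simpa using hρloc K h1 h2) hu
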